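import Mathlib
import Pool.Agent.R222.Fekete.Defs
import Pool.Agent.R222.Fekete.Main

/-!
# The ratio of the n-th diameter to the capacity for shrinking neighbourhoods

For every non-empty compact `K ⊆ ℂ` the ratio of the `n`-th diameter of `K^{1/n}` (the closed
`1/n`-neighbourhood) to its logarithmic capacity tends to `1`.

Idea of the proof. Moving every point of `K^ε` towards a nearest point of `K` by the factor
`λ < 1` multiplies all distances by at least `λ` and lands in `K^{λε}`. Smearing the points of a
configuration of `K^{λε}` over circles of radius `(1 - λ) ε` gives a measure on `K^ε`, whose energy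
bounds the capacity from below. Take `ε = 1/n` and `λ = 1 - 1/n`.
-/

set_option autoImplicit false

open Filter Topology

namespace Pool.Agent.Results.MP_d057eb_an.NeighbourhoodRatio

open Pool.Agent.R222.Fekete

/-- `δ_n(K^{1/n}) / C(K^{1/n}) → 1` for every non-empty compact `K ⊆ ℂ`. -/
theorem result (K : Set ℂ) (hK : IsCompact K) (hne : K.Nonempty) :
    Tendsto (fun n : ℕ => nthDiam n (Metric.cthickening (1 / (n:ℝ)) K) /
      capacity (Metric.cthickening (1 / (n:ℝ)) K)) atTop (𝓝 1) :=
  ratio_tendsto hK hne

end Pool.Agent.Results.MP_d057eb_an.NeighbourhoodRatio
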